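import Pool.Agent.Helper54.SAW.Arr

set_option autoImplicit false

namespace Pool.Agent.Helper18.SAW

open Finset hiding fold
open Pool.Agent.Helper54.SAW

/-! ### C0 : basic facts on walks -/

theorem mem_SAWs {n : ℕ} {l : List St} : l ∈ SAWs n ↔ l.length = n ∧ Saw l := by
  classical
  unfold SAWs
  rw [mem_filter, mem_lists]

theorem X_nil : X [] = 0 := rfl

theorem Y_nil : Y [] = 0 := rfl

theorem X_append (u v : List St) : X (u ++ v) = X u + X v := by
  simp [X]

theorem Y_append (u v : List St) : Y (u ++ v) = Y u + Y v := by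
  simp [Y]

theorem dx_fx (s : St) : dx (fx s) = - dx s := by
  obtain ⟨a, b⟩ := s
  unfold dx fx
  by_cases h : a = 0 <;> cases b <;> simp [h]

theorem dy_fx (s : St) : dy (fx s) = dy s := by
  obtain ⟨a, b⟩ := s
  unfold dy fx
  by_cases h : a = 0 <;> cases b <;> simp [h]

theorem dx_fy (s : St) : dx (fy s) = dx s := by
  obtain ⟨a, b⟩ := s
  unfold dx fy
  by_cases h : a = 1 <;> cases b <;> simp [h]

theorem dy_fy (s : St) : dy (fy s) = - dy s := by
  obtain ⟨a, b⟩ := s
  unfold dy fy
  by_cases h : a = 1 <;> cases b <;> simp [h]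

theorem fx_fx (s : St) : fx (fx s) = s := by
  obtain ⟨a, b⟩ := s
  unfold fx
  by_cases h : a = 0 <;> simp [h]

theorem fy_fy (s : St) : fy (fy s) = s := by
  obtain ⟨a, b⟩ := s
  unfold fy
  by_cases h : a = 1 <;> simp [h]

theorem X_map_fx (l : List St) : X (l.map fx) = - X l := by
  induction l with
  | nil => simp [X]
  | cons s l ih =>
    have h1 : X ((s :: l).map fx) = dx (fx s) + X (l.map fx) := by simp [X]
    have h2 : X (s :: l) = dx s + X l := by simp [X]
    rw [h1, h2, ih, dx_fx]; ring

theorem Y_map_fx (l : List St) : Y (l.map fx) = Y l := by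
  induction l with
  | nil => simp [Y]
  | cons s l ih =>
    have h1 : Y ((s :: l).map fx) = dy (fx s) + Y (l.map fx) := by simp [Y]
    have h2 : Y (s :: l) = dy s + Y l := by simp [Y]
    rw [h1, h2, ih, dy_fx]

theorem X_map_fy (l : List St) : X (l.map fy) = X l := by
  induction l with
  | nil => simp [X]
  | cons s l ih =>
    have h1 : X ((s :: l).map fy) = dx (fy s) + X (l.map fy) := by simp [X]
    have h2 : X (s :: l) = dx s + X l := by simp [X]
    rw [h1, h2, ih, dx_fy]

theorem Y_map_fy (l : List St) : Y (l.map fy) = - Y l := by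
  induction l with
  | nil => simp [Y]
  | cons s l ih =>
    have h1 : Y ((s :: l).map fy) = dy (fy s) + Y (l.map fy) := by simp [Y]
    have h2 : Y (s :: l) = dy s + Y l := by simp [Y]
    rw [h1, h2, ih, dy_fy]; ring

theorem map_fx_fx (l : List St) : (l.map fx).map fx = l := by
  rw [List.map_map]
  have : fx ∘ fx = id := by
    funext s; exact fx_fx s
  rw [this, List.map_id]

theorem map_fy_fy (l : List St) : (l.map fy).map fy = l := by
  rw [List.map_map]
  have : fy ∘ fy = id := by
    funext s; exact fy_fy s
  rw [this, List.map_id]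

theorem saw_append {u v : List St} (hu : Saw u) (hv : Saw v) (h1 : LeftOK u) (h2 : RightOK v) :
    Saw (u ++ v) := by
  intro a b c he hb hz
  rw [List.append_assoc] at he
  rcases List.append_eq_append_iff.1 he with ⟨a', ha, hv'⟩ | ⟨c', hu', hc⟩
  · -- a = u ++ a', v = a' ++ (b ++ c)
    exact hv a' b c (by rw [hv', List.append_assoc]) hb hz
  · -- u = a ++ c', b ++ c = c' ++ v
    rcases List.append_eq_append_iff.1 hc with ⟨b', hb', hv'⟩ | ⟨d, hd, hvd⟩
    · -- c' = b ++ b', c = b' ++ v
      exact hu a b b' (by rw [hu', hb', List.append_assoc]) hb hz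
    · -- b = c' ++ d, v = d ++ c
      by_cases hd0 : d = []
      · subst hd0
        rw [List.append_nil] at hd
        subst hd
        exact hu a b [] (by rw [hu', List.append_nil]) hb hz
      · have e1 : 0 ≤ X c' := h1 a c' hu'
        have e2 : 0 < X d := h2 d c hvd hd0
        have e3 : X b = X c' + X d := by rw [hd, X_append]
        have := hz.1
        omega

theorem saw_fx_aux {l : List St} (h : Saw l) : Saw (l.map fx) := by
  intro a b c he hb hz
  have he' : l = a.map fx ++ b.map fx ++ c.map fx := by
    have := congrArg (List.map fx) he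
    rw [map_fx_fx] at this
    simpa using this
  refine h _ _ _ he' (by simpa using hb) ⟨?_, ?_⟩
  · rw [X_map_fx, hz.1, neg_zero]
  · rw [Y_map_fx, hz.2]

theorem saw_fx {l : List St} : Saw (l.map fx) ↔ Saw l := by
  constructor
  · intro h
    have := saw_fx_aux h
    rwa [map_fx_fx] at this
  · exact saw_fx_aux

theorem saw_fy_aux {l : List St} (h : Saw l) : Saw (l.map fy) := by
  intro a b c he hb hz
  have he' : l = a.map fy ++ b.map fy ++ c.map fy := by
    have := congrArg (List.map fy) he
    rw [map_fy_fy] at this
    simpa using this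
  refine h _ _ _ he' (by simpa using hb) ⟨?_, ?_⟩
  · rw [X_map_fy, hz.1]
  · rw [Y_map_fy, hz.2, neg_zero]

theorem saw_fy {l : List St} : Saw (l.map fy) ↔ Saw l := by
  constructor
  · intro h
    have := saw_fy_aux h
    rwa [map_fy_fy] at this
  · exact saw_fy_aux

theorem saw_take {l : List St} (h : Saw l) (t : ℕ) : Saw (l.take t) := by
  intro a b c he hb hz
  refine h a b (c ++ l.drop t) ?_ hb hz
  calc l = l.take t ++ l.drop t := (List.take_append_drop t l).symm
    _ = _ := by rw [he]; simp

theorem saw_drop {l : List St} (h : Saw l) (t : ℕ) : Saw (l.drop t) := by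
  intro a b c he hb hz
  refine h (l.take t ++ a) b c ?_ hb hz
  calc l = l.take t ++ l.drop t := (List.take_append_drop t l).symm
    _ = _ := by rw [he]; simp

/-! ### C1 : unfolding -/

/-- the last time of the maximum -/
theorem exists_last_max (n : ℕ) (f : ℕ → ℤ) :
    ∃ t ≤ n, (∀ s ≤ n, f s ≤ f t) ∧ ∀ s ≤ n, t < s → f s < f t := by
  induction n with
  | zero => exact ⟨0, le_rfl, fun s hs => by rw [Nat.le_zero.1 hs], fun s hs h => by omega⟩
  | succ n ih =>
    obtain ⟨t, ht, h1, h2⟩ := ih
    by_cases h : f t ≤ f (n + 1)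
    · refine ⟨n + 1, le_rfl, fun s hs => ?_, fun s hs h' => by omega⟩
      rcases Nat.lt_or_ge s (n + 1) with h3 | h3
      · exact (h1 s (by omega)).trans h
      · have : s = n + 1 := by omega
        rw [this]
    · push Not at h
      refine ⟨t, by omega, fun s hs => ?_, fun s hs h' => ?_⟩
      · rcases Nat.lt_or_ge s (n + 1) with h3 | h3
        · exact h1 s (by omega)
        · have : s = n + 1 := by omega
          rw [this]; exact h.le
      · rcases Nat.lt_or_ge s (n + 1) with h3 | h3
        · exact h2 s (by omega) h'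
        · have : s = n + 1 := by omega
          rw [this]; exact h

theorem take_fold {l : List St} {t : ℕ} (ht : t ≤ l.length) : (fold l t).take t = l.take t := by
  unfold fold
  rw [List.take_append_of_le_length (by simp [ht])]
  simp

theorem drop_fold {l : List St} {t : ℕ} (ht : t ≤ l.length) :
    (fold l t).drop t = (l.drop t).map fx := by
  unfold fold
  have : (l.take t).length = t := by simp [ht]
  conv_lhs => rw [← this]
  rw [this]
  rw [List.drop_append_of_le_length (by simp [ht])]
  simp

theorem fold_fold {l : List St} {t : ℕ} (ht : t ≤ l.length) : fold (fold l t) t = l := by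
  conv_lhs => unfold fold
  rw [show l.take t ++ (l.drop t).map fx = fold l t from rfl, take_fold ht, drop_fold ht,
    map_fx_fx, List.take_append_drop]

theorem length_fold (l : List St) (t : ℕ) : (fold l t).length = l.length := by
  unfold fold
  simp
  omega

theorem X_fold (l : List St) (t : ℕ) : X (fold l t) = 2 * X (l.take t) - X l := by
  unfold fold
  rw [X_append, X_map_fx]
  have : X l = X (l.take t) + X (l.drop t) := by
    rw [← X_append, List.take_append_drop]
  rw [this]; ring

/-- the main step: unfolding at the last maximum -/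
theorem unfold_exists (n M r : ℕ) {l : List St} (hl : l ∈ Near n M r) :
    ∃ t ≤ n, fold l t ∈ Far n (2 * (M : ℤ) - r) ∧ Cut (fold l t) t ∧ Saw (fold (fold l t) t) ∧
      |2 * X ((fold l t).take t) - X (fold l t)| ≤ r := by
  classical
  unfold Near at hl
  rw [mem_filter, mem_SAWs] at hl
  obtain ⟨⟨hn, hs⟩, ⟨t0, ht0, hM⟩, hr⟩ := hl
  obtain ⟨t, ht, h1, h2⟩ := exists_last_max n (fun s => X (l.take s))
  have htl : t ≤ l.length := by omega
  have hL : LeftOK (l.take t) := by
    intro u v he
    have hu : u = l.take u.length := by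
      have h3 : (l.take t).take u.length = u := by rw [he]; simp
      rw [List.take_take] at h3
      have h4 : u.length ≤ t := by
        have := congrArg List.length he
        simp at this
        omega
      rw [min_eq_left h4] at h3
      exact h3.symm
    have h5 : u.length ≤ n := by
      have := congrArg List.length he
      simp at this
      omega
    have h6 := h1 u.length h5
    rw [← hu] at h6
    have h7 : X (l.take t) = X u + X v := by rw [he, X_append]
    omega
  have hR : RightOK ((l.drop t).map fx) := by
    intro u v he hu0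
    have he' : l.drop t = u.map fx ++ v.map fx := by
      have := congrArg (List.map fx) he
      rw [map_fx_fx] at this
      simpa using this
    have h3 : l.take (t + u.length) = l.take t ++ u.map fx := by
      rw [List.take_add, he']
      congr 1
      rw [List.take_append_of_le_length (by simp)]
      simp
    have h4 : t + u.length ≤ n := by
      have := congrArg List.length he'
      simp at this
      omega
    have h5 : 0 < u.length := List.length_pos_iff.2 hu0
    have h6 := h2 (t + u.length) h4 (by omega)
    rw [h3, X_append, X_map_fx] at h6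
    omega
  have hF : Saw (fold l t) := by
    unfold fold
    exact saw_append (saw_take hs t) (saw_fx.2 (saw_drop hs t)) hL hR
  refine ⟨t, ht, ?_, ⟨?_, ?_⟩, ?_, ?_⟩
  · unfold Far
    rw [mem_filter, mem_SAWs]
    refine ⟨⟨by rw [length_fold, hn], hF⟩, ?_⟩
    rw [X_fold]
    have h3 := h1 t0 ht0
    have h4 := (abs_le.1 hr).2
    omega
  · rw [take_fold htl]; exact hL
  · rw [drop_fold htl]; exact hR
  · rw [fold_fold htl]; exact hs
  · rw [take_fold htl, X_fold]
    have : 2 * X (l.take t) - (2 * X (l.take t) - X l) = X l := by ring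
    rw [this]; exact hr

theorem unfold_le (n M r : ℕ) :
    (Near n M r).card ≤ ∑ l ∈ Far n (2 * (M : ℤ) - r), nFold r l := by
  classical
  have hch : ∀ l : List St, ∃ t : ℕ, l ∈ Near n M r → (t ≤ n ∧
      fold l t ∈ Far n (2 * (M : ℤ) - r) ∧ Cut (fold l t) t ∧ Saw (fold (fold l t) t) ∧
      |2 * X ((fold l t).take t) - X (fold l t)| ≤ r) := by
    intro l
    by_cases hl : l ∈ Near n M r
    · obtain ⟨t, ht⟩ := unfold_exists n M r hl
      exact ⟨t, fun _ => ht⟩
    · exact ⟨0, fun h => absurd h hl⟩
  choose τ hτ using hch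
  have hlen : ∀ l ∈ Near n M r, l.length = n := by
    intro l hl
    unfold Near at hl
    rw [mem_filter, mem_SAWs] at hl
    exact hl.1.1
  have hsig : ∑ l ∈ Far n (2 * (M : ℤ) - r), nFold r l =
      ((Far n (2 * (M : ℤ) - r)).sigma (fun l => (Finset.range (l.length + 1)).filter
    (fun t => Cut l t ∧ Saw (fold l t) ∧ |2 * X (l.take t) - X l| ≤ r))).card := by
    rw [Finset.card_sigma]
    rfl
  rw [hsig]
  refine Finset.card_le_card_of_injOn (fun l => (⟨fold l (τ l), τ l⟩ : Σ _ : List St, ℕ)) ?_ ?_
  · intro l hl
    have hl' : l ∈ Near n M r := hl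
    obtain ⟨h1, h2, h3, h4, h5⟩ := hτ l hl'
    simp only [Finset.coe_sigma, Set.mem_sigma_iff, Finset.mem_coe, Finset.mem_filter,
      Finset.mem_range]
    refine ⟨h2, ?_, h3, h4, h5⟩
    rw [length_fold, hlen l hl']
    omega
  · intro l hl l' hl' he
    simp only [Sigma.mk.injEq, heq_eq_eq] at he
    obtain ⟨e1, e2⟩ := he
    have a1 := hτ l hl
    have a2 := hτ l' hl'
    have b1 := hlen l hl
    have b2 := hlen l' hl'
    rw [← fold_fold (l := l) (t := τ l) (by omega), ← fold_fold (l := l') (t := τ l') (by omega),
      e1, e2]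

end Pool.Agent.Helper18.SAW
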